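import Pool.Agent.EI28P.Data

set_option autoImplicit false

/-! Positivity of the polynomials of the upper bound. -/

namespace Pool.Agent.EI28P

/-! ### `t ∈ [0, 1]`, `5 / 2 ≤ w` -/

/-- a polynomial after the substitution `w = (u + 5) / 2`, homogenised in `t`, `1 - t` -/
def uE (l : P2) : E :=
  homE (E.add E.v0 (E.c 5)) (E.c 1) E.v2 (E.add E.v1 E.v2) 8 7 l

theorem ev_uE {l : P2} (hl : short 8 l = true) (t w : ℝ) :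
    (uE l).ev (2 * w - 5) (1 - t) t 0 = 2 ^ 8 * ev2 w t l := by
  refine ev_homE (t := w) (u := t) ?_ ?_ ?_ ?_ l 7 hl <;> simp only [E.ev] <;> push_cast <;> ring

theorem u_nonneg {l : P2} (hl : short 8 l = true) (h : nonneg4 (uE l).norm = true) {t w : ℝ}
    (h0 : 0 ≤ t) (h1 : t ≤ 1) (h2 : 5 / 2 ≤ w) : 0 ≤ ev2 w t l := by
  have h3 := E.nonneg h (x0 := 2 * w - 5) (x1 := 1 - t) (x2 := t) (x3 := 0) (by linarith)
    (by linarith) h0 le_rfl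
  rw [ev_uE hl] at h3
  linarith

theorem u_pos {l : P2} (hl : short 8 l = true)
    (h : nonneg4 (E.sub (uE l) (E.pow E.v1 7)).norm = true) {t w : ℝ}
    (h0 : 0 < t) (h1 : t < 1) (h2 : 5 / 2 ≤ w) : 0 < ev2 w t l := by
  have h3 := E.nonneg h (x0 := 2 * w - 5) (x1 := 1 - t) (x2 := t) (x3 := 0) (by linarith)
    (by linarith) h0.le le_rfl
  rw [E.ev_sub, ev_uE hl] at h3
  have h4 : 0 < (1 - t) ^ 7 := pow_pos (by linarith) 7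
  have h5 : (E.pow E.v1 7).ev (2 * w - 5) (1 - t) t 0 = (1 - t) ^ 7 := rfl
  rw [h5] at h3
  linarith

theorem GU0_nonneg {t w : ℝ} (h0 : 0 ≤ t) (h1 : t ≤ 1) (h2 : 5 / 2 ≤ w) : 0 ≤ ev2 w t GU0 :=
  u_nonneg (by decide +kernel) (by decide +kernel) h0 h1 h2
theorem GU1_nonneg {t w : ℝ} (h0 : 0 ≤ t) (h1 : t ≤ 1) (h2 : 5 / 2 ≤ w) : 0 ≤ ev2 w t GU1 :=
  u_nonneg (by decide +kernel) (by decide +kernel) h0 h1 h2
theorem GU2_nonneg {t w : ℝ} (h0 : 0 ≤ t) (h1 : t ≤ 1) (h2 : 5 / 2 ≤ w) : 0 ≤ ev2 w t GU2 :=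
  u_nonneg (by decide +kernel) (by decide +kernel) h0 h1 h2
theorem GU3_nonneg {t w : ℝ} (h0 : 0 ≤ t) (h1 : t ≤ 1) (h2 : 5 / 2 ≤ w) : 0 ≤ ev2 w t GU3 :=
  u_nonneg (by decide +kernel) (by decide +kernel) h0 h1 h2
theorem GU0_pos {t w : ℝ} (h0 : 0 < t) (h1 : t < 1) (h2 : 5 / 2 ≤ w) : 0 < ev2 w t GU0 :=
  u_pos (by decide +kernel) (by decide +kernel) h0 h1 h2

/-! ### `b ∈ [0, 1]`, `1 ≤ r ≤ 11 / 2` -/

/-- a polynomial after the substitution `2 r = 11 z + 2 v`, homogenised in `z`, `v` and in `b`,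
`1 - b` -/
def jE (l : P2) : E :=
  homE (E.add (E.mul (E.c 11) E.v0) (E.mul (E.c 2) E.v1)) (E.add E.v0 E.v1) E.v3
    (E.add E.v2 E.v3) 5 7 l

theorem ev_jE {l : P2} (hl : short 5 l = true) (b r : ℝ) :
    (jE l).ev ((r - 1) * (2 / 9)) ((11 / 2 - r) * (2 / 9)) (1 - b) b = 2 ^ 5 * ev2 r b l := by
  refine ev_homE (t := r) (u := b) ?_ ?_ ?_ ?_ l 7 hl <;> simp only [E.ev] <;> push_cast <;> ring

theorem j_nonneg {l : P2} (hl : short 5 l = true) (h : nonneg4 (jE l).norm = true) {b r : ℝ}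
    (h0 : 0 ≤ b) (h1 : b ≤ 1) (h2 : 1 ≤ r) (h3 : r ≤ 11 / 2) : 0 ≤ ev2 r b l := by
  have h4 := E.nonneg h (x0 := (r - 1) * (2 / 9)) (x1 := (11 / 2 - r) * (2 / 9)) (x2 := 1 - b)
    (x3 := b) (by linarith) (by linarith) (by linarith) h0
  rw [ev_jE hl] at h4
  linarith

theorem j_pos {l : P2} (hl : short 5 l = true)
    (h : nonneg4 (E.sub (jE l) (E.mul (E.pow E.v1 5) (E.pow E.v2 7))).norm = true) {b r : ℝ}
    (h0 : 0 < b) (h1 : b < 1) (h2 : 1 ≤ r) (h3 : r < 11 / 2) : 0 < ev2 r b l := by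
  have h4 := E.nonneg h (x0 := (r - 1) * (2 / 9)) (x1 := (11 / 2 - r) * (2 / 9)) (x2 := 1 - b)
    (x3 := b) (by linarith) (by linarith) (by linarith) h0.le
  rw [E.ev_sub, ev_jE hl] at h4
  have h5 : 0 < ((11 / 2 - r) * (2 / 9)) ^ 5 * (1 - b) ^ 7 :=
    mul_pos (pow_pos (by linarith) 5) (pow_pos (by linarith) 7)
  have h6 : (E.mul (E.pow E.v1 5) (E.pow E.v2 7)).ev ((r - 1) * (2 / 9))
      ((11 / 2 - r) * (2 / 9)) (1 - b) b = ((11 / 2 - r) * (2 / 9)) ^ 5 * (1 - b) ^ 7 := rfl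
  rw [h6] at h4
  linarith

theorem GJ0_nonneg {b r : ℝ} (h0 : 0 ≤ b) (h1 : b ≤ 1) (h2 : 1 ≤ r) (h3 : r ≤ 11 / 2) :
    0 ≤ ev2 r b GJ0 := j_nonneg (by decide +kernel) (by decide +kernel) h0 h1 h2 h3
theorem GJ1_nonneg {b r : ℝ} (h0 : 0 ≤ b) (h1 : b ≤ 1) (h2 : 1 ≤ r) (h3 : r ≤ 11 / 2) :
    0 ≤ ev2 r b GJ1 := j_nonneg (by decide +kernel) (by decide +kernel) h0 h1 h2 h3
theorem GJ2_nonneg {b r : ℝ} (h0 : 0 ≤ b) (h1 : b ≤ 1) (h2 : 1 ≤ r) (h3 : r ≤ 11 / 2) :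
    0 ≤ ev2 r b GJ2 := j_nonneg (by decide +kernel) (by decide +kernel) h0 h1 h2 h3
theorem GJ3_nonneg {b r : ℝ} (h0 : 0 ≤ b) (h1 : b ≤ 1) (h2 : 1 ≤ r) (h3 : r ≤ 11 / 2) :
    0 ≤ ev2 r b GJ3 := j_nonneg (by decide +kernel) (by decide +kernel) h0 h1 h2 h3
theorem GJ0_pos {b r : ℝ} (h0 : 0 < b) (h1 : b < 1) (h2 : 1 ≤ r) (h3 : r < 11 / 2) :
    0 < ev2 r b GJ0 := j_pos (by decide +kernel) (by decide +kernel) h0 h1 h2 h3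

end Pool.Agent.EI28P
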