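import Pool.Agent.EI28P.Refl

set_option autoImplicit false

/-! The polynomials of the upper bound, as coefficient lists. -/

namespace Pool.Agent.EI28P

def GU0 : P2 :=
  [[-14, -84, -199, -214, -45, 136, 151, 66, 11], [94, 456, 845, 686, 135, -116, -29, 30, 11],
   [-147, -508, -637, -422, -267, -40, 265, 250, 66],
   [-93, -346, 53, 1216, 1023, -394, -617, -44, 66],
   [464, 768, -1003, -2010, 57, 900, -20, -144, 16],
   [-480, -176, 1457, 450, -891, -48, 60, -64, 16], [209, -176, -549, 450, 66, -48, 112, -64],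
   [-33, 66, 33, -132, 114, -96, 48]]

def GU1 : P2 :=
  [[-56, -336, -815, -970, -465, 164, 319, 150, 25],
   [252, 1204, 2137, 1470, -205, -808, -321, 22, 25],
   [-445, -1584, -1937, -886, -195, -140, 141, 258, 84],
   [357, 822, 1097, 1800, 1351, -526, -873, -80, 84],
   [-70, -32, -1315, -2170, 379, 1500, 72, -216, 16],
   [-86, -48, 1297, 442, -1321, -200, 256, -32, 16], [59, -48, -529, 442, 260, -200, 48, -32],
   [-11, 22, 65, -152, 92, -32, 16]]

def GU2 : P2 :=
  [[-54, -324, -793, -978, -555, 16, 201, 102, 17],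
   [294, 1416, 2571, 1922, 25, -796, -379, -14, 17],
   [-681, -2484, -2943, -634, 1067, 552, -37, -10, 18],
   [873, 2178, 1207, -616, -495, -38, -115, -36, 18], [-672, -912, 87, 234, 99, 300, 36, -72],
   [312, 72, -93, 54, -273, -72, 108], [-81, 72, -63, 54, 90, -72], [9, -18, 27, -36, 18]]

def GU3 : P2 :=
  [[-12, -72, -177, -222, -135, -12, 33, 18, 3], [72, 348, 639, 498, 45, -168, -87, -6, 3],
   [-183, -672, -795, -138, 363, 204, -9, -18], [255, 642, 291, -384, -303, 30, 45],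
   [-210, -288, 159, 282, -15, -60], [102, 24, -141, -18, 45], [-27, 24, 21, -18], [3, -6, 3]]

def GJ0 : P2 :=
  [[12, 28], [96, 143, 64, -3], [24, 388, 331, 32, -3], [-66, 84, 558, 302, -10],
   [-30, -138, 32, 362, 120, -6], [0, -38, -140, -76, 108, 18], [0, 4, -12, -88, -60, 12],
   [0, 0, 4, -4, -20, -12]]

def GJ1 : P2 :=
  [[-20, 68], [-64, 115, 158, -9], [-40, -80, 407, 82, -9], [-16, -68, 80, 400, -20],
   [-10, -36, 4, 156, 146, -12], [0, -18, -24, 48, 72, 18], [0, 0, -8, -4, 16, 12]]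

def GJ2 : P2 :=
  [[-44, 52], [-32, -55, 124, -9], [-16, -68, 61, 68, -9], [2, -40, -30, 98, -10],
   [0, 2, -24, 6, 26, -6]]

def GJ3 : P2 :=
  [[-12, 12], [0, -27, 30, -3], [0, 0, -15, 18, -3]]

def NJ0 : P2 :=
  [[12], [52, 15], [60, 76, 3], [32, 94, 26], [6, 44, 40, 2], [0, 6, 12, 6]]

def NJ1 : P2 :=
  [[24], [64, 30], [36, 88, 6], [8, 46, 26], [0, 8, 10, 2]]

def NJ2 : P2 :=
  [[12], [12, 15], [0, 12, 3]]

end Pool.Agent.EI28P
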