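import Pool.Agent.EI28P.Data

set_option autoImplicit false

/-! The identities of the case `2 ≤ R ≤ 13 / 2`. -/

namespace Pool.Agent.EI28P

namespace J

def bE : E := E.v1
def rE : E := E.v0
def nE : E := E.add E.v2 (E.c 1)
/-- `b (2 + b (r + 1))` -/
def sE : E := E.mul bE (E.add (E.c 2) (E.mul bE (E.add rE (E.c 1))))
/-- `2 + 4 b r - b + b ^ 2 r (2 r - 1)` -/
def lE : E := E.add (E.sub (E.add (E.c 2) (E.mul (E.mul (E.c 4) bE) rE)) bE)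
  (E.mul (E.mul (E.pow bE 2) rE) (E.sub (E.mul (E.c 2) rE) (E.c 1)))
/-- `2 ((3 N + s) (N + s)) + N (3 N + 2 s) (b (r + 1))` -/
def mE : E := E.add
  (E.mul (E.c 2) (E.mul (E.add (E.mul (E.c 3) nE) sE) (E.add nE sE)))
  (E.mul (E.mul nE (E.add (E.mul (E.c 3) nE) (E.mul (E.c 2) sE))) (E.mul bE (E.add rE (E.c 1))))
/-- `m (4 (b (r + 1)) + 4 (1 - b) - b r - 1) - N (3 N + 2 s) l` -/
def nuE : E := E.sub
  (E.mul mE (E.sub (E.sub (E.add (E.mul (E.c 4) (E.mul bE (E.add rE (E.c 1))))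
    (E.mul (E.c 4) (E.sub (E.c 1) bE))) (E.mul bE rE)) (E.c 1)))
  (E.mul (E.mul nE (E.add (E.mul (E.c 3) nE) (E.mul (E.c 2) sE))) lE)
/-- `(12 (b r) (N + s) ^ 2 - 2 (s ^ 2 N (r (1 - b)))) l
  - m (4 (b r) (1 - b) ^ 2 + 4 (r b (1 - b)) ^ 2) - nu (b ^ 2 (r + 1) (r (1 - b)))` -/
def epE : E := E.sub (E.sub
  (E.mul (E.sub (E.mul (E.mul (E.c 12) (E.mul bE rE)) (E.pow (E.add nE sE) 2))
    (E.mul (E.c 2) (E.mul (E.mul (E.pow sE 2) nE) (E.mul rE (E.sub (E.c 1) bE))))) lE)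
  (E.mul mE (E.add (E.mul (E.mul (E.c 4) (E.mul bE rE)) (E.pow (E.sub (E.c 1) bE) 2))
    (E.mul (E.c 4) (E.pow (E.mul (E.mul rE bE) (E.sub (E.c 1) bE)) 2)))))
  (E.mul nuE (E.mul (E.mul (E.pow bE 2) (E.add rE (E.c 1))) (E.mul rE (E.sub (E.c 1) bE))))

def lhsE : E := E.sub
  (E.mul epE (E.add (E.mul rE (E.add (E.mul nE (E.add rE (E.c 1))) (E.c 2)))
    (E.mul (E.c 2) (E.pow (E.mul bE rE) 2))))
  (E.mul (E.c 4) (E.mul (E.mul (E.c 3) (E.mul (E.mul (E.add (E.c 1) (E.mul bE rE))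
    (E.pow (E.mul bE rE) 2)) (E.add nE (E.c 2)))) (E.mul (E.pow (E.add nE sE) 2) lE)))
def gE : E := E.add (E.p GJ0) (E.mul E.v2 (E.add (E.p GJ1) (E.mul E.v2 (E.add (E.p GJ2)
  (E.mul E.v2 (E.p GJ3))))))
def rhsE : E := E.mul (E.mul (E.mul (E.pow bE 2) (E.pow rE 2)) (E.sub (E.c 1) bE)) gE
def nuR : E := E.add (E.p NJ0) (E.mul E.v2 (E.add (E.p NJ1) (E.mul E.v2 (E.p NJ2))))

theorem check : zero4 (E.sub lhsE rhsE).norm = true := by decide +kernel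

theorem check_nu : zero4 (E.sub nuE nuR).norm = true := by decide +kernel

theorem nu_nonneg : nonneg4 nuR.norm = true := by decide +kernel

end J

end Pool.Agent.EI28P
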