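import Pool.Agent.EI28P.Data

set_option autoImplicit false

/-! The identity of the case `25 / 4 ≤ R`. -/

namespace Pool.Agent.EI28P

namespace U

/-- `1 + (w - 1) t` -/
def qE : E := E.add (E.c 1) (E.mul (E.sub E.v0 (E.c 1)) E.v1)
def rE : E := E.pow E.v0 2
def nE : E := E.add E.v2 (E.c 1)
def wdE : E := E.add (E.mul nE (E.pow (E.sub rE qE) 2))
  (E.mul (E.mul (E.c 2) rE) (E.pow (E.sub qE (E.c 1)) 2))
def hE : E := E.mul (E.mul (E.mul (E.c 2) qE) (E.sub qE (E.c 1))) (E.sub rE (E.c 1))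
def brE : E := E.mul (E.sub rE (E.c 1)) (E.add (E.mul (E.c 3) (E.pow (E.add wdE hE) 2))
  (E.mul (E.mul (E.mul (E.c 8) (E.sub rE (E.c 1))) (E.sub rE (E.pow qE 2)))
    (E.add wdE (E.mul (E.c 2) hE))))
def lhsE : E := E.sub
  (E.mul brE (E.add (E.mul (E.sub rE (E.c 1)) (E.add (E.mul nE rE) (E.c 2)))
    (E.mul (E.c 2) (E.pow (E.sub (E.pow qE 2) (E.c 1)) 2))))
  (E.mul (E.mul (E.mul (E.mul (E.c 3) (E.pow (E.add qE (E.c 1)) 2)) (E.add nE (E.c 2)))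
    (E.pow (E.sub rE qE) 2)) (E.pow (E.add wdE hE) 2))
def gE : E := E.add (E.p GU0) (E.mul E.v2 (E.add (E.p GU1) (E.mul E.v2 (E.add (E.p GU2)
  (E.mul E.v2 (E.p GU3))))))
def rhsE : E := E.mul (E.mul (E.pow (E.sub E.v0 (E.c 1)) 6) (E.sub (E.c 1) E.v1)) gE

theorem check : zero4 (E.sub lhsE rhsE).norm = true := by decide +kernel

end U

end Pool.Agent.EI28P
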