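import Mathlib

set_option autoImplicit false

/-! Polynomial identities and inequalities in four variables, checked on lists of integers. -/

namespace Pool.Agent.EI28P

section Lists

variable {A : Type}

/-- sum of two coefficient lists -/
def addL (add : A → A → A) : List A → List A → List A
  | [], m => m
  | a :: l, [] => a :: l
  | a :: l, b :: m => add a b :: addL add l m

/-- product of two coefficient lists -/
def mulL (add mul : A → A → A) (z : A) : List A → List A → List A
  | [], _ => []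
  | a :: l, m => addL add (m.map (mul a)) (z :: mulL add mul z l m)

/-- value of a coefficient list -/
noncomputable def evL (e : A → ℝ) (x : ℝ) : List A → ℝ
  | [] => 0
  | a :: l => e a + x * evL e x l

variable {e : A → ℝ} {x : ℝ} {add mul : A → A → A} {z : A}

theorem evL_add (h : ∀ a b, e (add a b) = e a + e b) (l m : List A) :
    evL e x (addL add l m) = evL e x l + evL e x m := by
  induction l generalizing m with
  | nil => simp [addL, evL]
  | cons a l ih =>
    cases m with
    | nil => simp [addL, evL]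
    | cons b m => simp only [addL, evL, h, ih]; ring

theorem evL_map (h : ∀ a b, e (mul a b) = e a * e b) (a : A) (m : List A) :
    evL e x (m.map (mul a)) = e a * evL e x m := by
  induction m with
  | nil => simp [evL]
  | cons b m ih => simp only [List.map_cons, evL, h, ih]; ring

theorem evL_mul (h1 : ∀ a b, e (add a b) = e a + e b) (h2 : ∀ a b, e (mul a b) = e a * e b)
    (h3 : e z = 0) (l m : List A) :
    evL e x (mulL add mul z l m) = evL e x l * evL e x m := by
  induction l with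
  | nil => simp [mulL, evL]
  | cons a l ih =>
    simp only [mulL, evL_add h1, evL_map h2, evL, ih, h3]
    ring

/-- all coefficients satisfy a test -/
def allL (q : A → Bool) : List A → Bool
  | [] => true
  | a :: l => q a && allL q l

theorem evL_nonneg {q : A → Bool} (h : ∀ a, q a = true → 0 ≤ e a) (hx : 0 ≤ x) (l : List A)
    (hl : allL q l = true) : 0 ≤ evL e x l := by
  induction l with
  | nil => simp [evL]
  | cons a l ih =>
    simp only [allL, Bool.and_eq_true] at hl
    have h1 := h a hl.1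
    have h2 := ih hl.2
    simp only [evL]
    positivity

theorem evL_zero {q : A → Bool} (h : ∀ a, q a = true → e a = 0) (l : List A)
    (hl : allL q l = true) : evL e x l = 0 := by
  induction l with
  | nil => simp [evL]
  | cons a l ih =>
    simp only [allL, Bool.and_eq_true] at hl
    simp only [evL, h a hl.1, ih hl.2]
    ring

end Lists

abbrev P1 := List ℤ
abbrev P2 := List P1
abbrev P3 := List P2
abbrev P4 := List P3

def add1 : P1 → P1 → P1 := addL (fun a b : ℤ => a + b)
def mul1 : P1 → P1 → P1 := mulL (fun a b : ℤ => a + b) (fun a b : ℤ => a * b) 0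
def add2 : P2 → P2 → P2 := addL add1
def mul2 : P2 → P2 → P2 := mulL add1 mul1 []
def add3 : P3 → P3 → P3 := addL add2
def mul3 : P3 → P3 → P3 := mulL add2 mul2 []
def add4 : P4 → P4 → P4 := addL add3
def mul4 : P4 → P4 → P4 := mulL add3 mul3 []

noncomputable def ev1 (x0 : ℝ) : P1 → ℝ := evL (fun a : ℤ => (a : ℝ)) x0
noncomputable def ev2 (x0 x1 : ℝ) : P2 → ℝ := evL (ev1 x0) x1
noncomputable def ev3 (x0 x1 x2 : ℝ) : P3 → ℝ := evL (ev2 x0 x1) x2
noncomputable def ev4 (x0 x1 x2 x3 : ℝ) : P4 → ℝ := evL (ev3 x0 x1 x2) x3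

section

variable (x0 x1 x2 x3 : ℝ)

theorem ev1_add (a b : P1) : ev1 x0 (add1 a b) = ev1 x0 a + ev1 x0 b :=
  evL_add (fun a b => by push_cast; ring) a b
theorem ev1_mul (a b : P1) : ev1 x0 (mul1 a b) = ev1 x0 a * ev1 x0 b :=
  evL_mul (fun a b => by push_cast; ring) (fun a b => by push_cast; ring) (by simp) a b
theorem ev2_add (a b : P2) : ev2 x0 x1 (add2 a b) = ev2 x0 x1 a + ev2 x0 x1 b :=
  evL_add (ev1_add x0) a b
theorem ev2_mul (a b : P2) : ev2 x0 x1 (mul2 a b) = ev2 x0 x1 a * ev2 x0 x1 b :=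
  evL_mul (ev1_add x0) (ev1_mul x0) rfl a b
theorem ev3_add (a b : P3) : ev3 x0 x1 x2 (add3 a b) = ev3 x0 x1 x2 a + ev3 x0 x1 x2 b :=
  evL_add (ev2_add x0 x1) a b
theorem ev3_mul (a b : P3) : ev3 x0 x1 x2 (mul3 a b) = ev3 x0 x1 x2 a * ev3 x0 x1 x2 b :=
  evL_mul (ev2_add x0 x1) (ev2_mul x0 x1) rfl a b
theorem ev4_add (a b : P4) :
    ev4 x0 x1 x2 x3 (add4 a b) = ev4 x0 x1 x2 x3 a + ev4 x0 x1 x2 x3 b :=
  evL_add (ev3_add x0 x1 x2) a b
theorem ev4_mul (a b : P4) :
    ev4 x0 x1 x2 x3 (mul4 a b) = ev4 x0 x1 x2 x3 a * ev4 x0 x1 x2 x3 b :=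
  evL_mul (ev3_add x0 x1 x2) (ev3_mul x0 x1 x2) rfl a b

end

/-- expressions in four variables -/
inductive E
  | v0 | v1 | v2 | v3
  | c (z : ℤ)
  | p (l : P2)
  | add (a b : E)
  | mul (a b : E)
  | pow (a : E) (k : ℕ)

namespace E

/-- normal form -/
def norm : E → P4
  | v0 => [[[[0, 1]]]]
  | v1 => [[[[], [1]]]]
  | v2 => [[[], [[1]]]]
  | v3 => [[], [[[1]]]]
  | c z => [[[[z]]]]
  | p l => [[l]]
  | add a b => add4 (norm a) (norm b)
  | mul a b => mul4 (norm a) (norm b)
  | pow a k => Nat.rec [[[[1]]]] (fun _ q => mul4 (norm a) q) k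

/-- value -/
noncomputable def ev (x0 x1 x2 x3 : ℝ) : E → ℝ
  | v0 => x0
  | v1 => x1
  | v2 => x2
  | v3 => x3
  | c z => z
  | p l => ev2 x0 x1 l
  | add a b => ev x0 x1 x2 x3 a + ev x0 x1 x2 x3 b
  | mul a b => ev x0 x1 x2 x3 a * ev x0 x1 x2 x3 b
  | pow a k => ev x0 x1 x2 x3 a ^ k

theorem ev_norm (x0 x1 x2 x3 : ℝ) (a : E) : ev4 x0 x1 x2 x3 (norm a) = ev x0 x1 x2 x3 a := by
  induction a with
  | v0 => simp [norm, ev, ev4, ev3, ev2, ev1, evL]
  | v1 => simp [norm, ev, ev4, ev3, ev2, ev1, evL]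
  | v2 => simp [norm, ev, ev4, ev3, ev2, ev1, evL]
  | v3 => simp [norm, ev, ev4, ev3, ev2, ev1, evL]
  | c z => simp [norm, ev, ev4, ev3, ev2, ev1, evL]
  | p l => simp [norm, ev, ev4, ev3, evL]
  | add a b iha ihb => simp only [norm, ev, ev4_add, iha, ihb]
  | mul a b iha ihb => simp only [norm, ev, ev4_mul, iha, ihb]
  | pow a k iha =>
    simp only [norm, ev]
    induction k with
    | zero => simp [ev4, ev3, ev2, ev1, evL]
    | succ k ih => rw [ev4_mul, iha, ih]; ring

end E

/-- all coefficients are nonnegative -/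
def nonneg4 : P4 → Bool := allL (allL (allL (allL (fun a : ℤ => decide (0 ≤ a)))))

/-- all coefficients vanish -/
def zero4 : P4 → Bool := allL (allL (allL (allL (fun a : ℤ => decide (a = 0)))))

theorem E.nonneg {a : E} (h : nonneg4 a.norm = true) {x0 x1 x2 x3 : ℝ} (h0 : 0 ≤ x0) (h1 : 0 ≤ x1)
    (h2 : 0 ≤ x2) (h3 : 0 ≤ x3) : 0 ≤ a.ev x0 x1 x2 x3 := by
  rw [← E.ev_norm]
  refine evL_nonneg (fun b hb => ?_) h3 _ h
  refine evL_nonneg (fun b hb => ?_) h2 _ hb
  refine evL_nonneg (fun b hb => ?_) h1 _ hb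
  refine evL_nonneg (fun b hb => ?_) h0 _ hb
  exact_mod_cast of_decide_eq_true hb

theorem E.eq_zero {a : E} (h : zero4 a.norm = true) (x0 x1 x2 x3 : ℝ) :
    a.ev x0 x1 x2 x3 = 0 := by
  rw [← E.ev_norm]
  refine evL_zero (fun b hb => ?_) _ h
  refine evL_zero (fun b hb => ?_) _ hb
  refine evL_zero (fun b hb => ?_) _ hb
  refine evL_zero (fun b hb => ?_) _ hb
  exact_mod_cast of_decide_eq_true hb

/-- difference of two expressions -/
def E.sub (a b : E) : E := E.add a (E.mul (E.c (-1)) b)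

theorem E.ev_sub (a b : E) (x0 x1 x2 x3 : ℝ) :
    (E.sub a b).ev x0 x1 x2 x3 = a.ev x0 x1 x2 x3 - b.ev x0 x1 x2 x3 := by
  simp only [E.sub, E.ev]
  push_cast
  ring

theorem E.ev_eq {a b : E} (h : zero4 (E.sub a b).norm = true) (x0 x1 x2 x3 : ℝ) :
    a.ev x0 x1 x2 x3 = b.ev x0 x1 x2 x3 := by
  have := E.eq_zero h x0 x1 x2 x3
  rw [E.ev_sub] at this
  linarith

/-- substitution of `s / 2` into a coefficient list, homogenised by `o` and scaled by `2 ^ D` -/
def subE (s o : E) : ℕ → P1 → E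
  | _, [] => E.c 0
  | D, a :: l => E.add (E.mul (E.c (a * 2 ^ D)) (E.pow o D)) (E.mul s (subE s o (D - 1) l))

theorem ev_subE {s o : E} {x0 x1 x2 x3 : ℝ} (ho : o.ev x0 x1 x2 x3 = 1) {t : ℝ}
    (hs : s.ev x0 x1 x2 x3 = 2 * t) (l : P1) : ∀ D : ℕ, l.length ≤ D + 1 →
      (subE s o D l).ev x0 x1 x2 x3 = 2 ^ D * ev1 t l := by
  induction l with
  | nil => intro D _; simp [subE, E.ev, ev1, evL]
  | cons a l ih =>
    intro D hD
    simp only [subE, E.ev, ho, hs, one_pow, mul_one]
    cases D with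
    | zero =>
      have hl : l = [] := by
        cases l with
        | nil => rfl
        | cons b l => simp at hD
      subst hl
      simp [subE, E.ev, ev1, evL]
    | succ D =>
      have h := ih D (by simpa using hD)
      simp only [Nat.add_sub_cancel] at h ⊢
      rw [h]
      simp only [ev1, evL]
      push_cast
      ring

/-- substitution into both variables of a polynomial, homogenised by `f` in the outer variable
`y` -/
def homE (s o y f : E) (d : ℕ) : ℕ → P2 → E
  | _, [] => E.c 0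
  | D, a :: l => E.add (E.mul (subE s o d a) (E.pow f D)) (E.mul y (homE s o y f d (D - 1) l))

/-- the lists are not too long -/
def short (d : ℕ) (l : P2) : Bool := allL (fun a : P1 => decide (a.length ≤ d + 1)) l

theorem ev_homE {s o y f : E} {x0 x1 x2 x3 : ℝ} (ho : o.ev x0 x1 x2 x3 = 1)
    (hf : f.ev x0 x1 x2 x3 = 1) {t u : ℝ} (hs : s.ev x0 x1 x2 x3 = 2 * t)
    (hy : y.ev x0 x1 x2 x3 = u) {d : ℕ} (l : P2) : ∀ D : ℕ, short d l = true →
      (homE s o y f d D l).ev x0 x1 x2 x3 = 2 ^ d * ev2 t u l := by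
  induction l with
  | nil => intro D _; simp [homE, E.ev, ev2, evL]
  | cons a l ih =>
    intro D hD
    simp only [short, allL, Bool.and_eq_true, decide_eq_true_eq] at hD
    simp only [homE, E.ev, hf, hy, one_pow, mul_one, ev_subE ho hs a d hD.1, ih (D - 1) hD.2]
    simp only [ev2, evL]
    ring

end Pool.Agent.EI28P
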